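import Pool.Agent.H54.WB.TargetsC
import Pool.Agent.H69.VR.MSat

/-!
# Widths bounded by a function of the size (MP_64fb07_lc): row NSO
-/

set_option autoImplicit false

namespace Pool.Agent.H46.WB

open Pool.Agent.H69.Sp Pool.Agent.H69.VR Pool.Agent.H8.VR Pool.Agent.H8.MC Pool.Agent.H54.WB

/-! ### formulas of monadic second-order logic -/

theorem exists_below : ∀ Ψ : MS, ∃ m, Ψ.Below m ∧ ∀ m', m ≤ m' → Ψ.Below m'
  | .un i _ => ⟨i + 1, Nat.lt_succ_self i, fun _ h => h⟩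
  | .bi i _ _ => ⟨i + 1, Nat.lt_succ_self i, fun _ h => h⟩
  | .eq _ _ => ⟨0, trivial, fun _ _ => trivial⟩
  | .mem _ _ => ⟨0, trivial, fun _ _ => trivial⟩
  | .mod _ _ _ => ⟨0, trivial, fun _ _ => trivial⟩
  | .neg φ => exists_below φ
  | .and φ ψ => by
      obtain ⟨m, -, h⟩ := exists_below φ
      obtain ⟨m', -, h'⟩ := exists_below ψ
      exact ⟨max m m', ⟨h _ (le_max_left _ _), h' _ (le_max_right _ _)⟩, fun k hk =>
        ⟨h k (le_trans (le_max_left _ _) hk), h' k (le_trans (le_max_right _ _) hk)⟩⟩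
  | .ex _ φ => exists_below φ
  | .exS _ φ => exists_below φ

section ms

variable {A B : Type}

theorem sat_congr {P : ℕ → A → Prop} {R : ℕ → A → A → Prop} : ∀ (φ : MS) (N : ℕ), φ.vb ≤ N →
    ∀ (e e' : ℕ → A) (V V' : ℕ → Set A), (∀ i < N, e i = e' i ∧ V i = V' i) →
      (φ.Sat P R e V ↔ φ.Sat P R e' V')
  | .un i x, N, hN, e, e', V, V', h => by
      show P i (e x) ↔ P i (e' x)
      rw [(h x hN).1]
  | .bi i x y, N, hN, e, e', V, V', h => by
      show R i (e x) (e y) ↔ R i (e' x) (e' y)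
      rw [(h x (le_of_max_le_left hN)).1, (h y (le_of_max_le_right hN)).1]
  | .eq x y, N, hN, e, e', V, V', h => by
      show e x = e y ↔ e' x = e' y
      rw [(h x (le_of_max_le_left hN)).1, (h y (le_of_max_le_right hN)).1]
  | .mem x X, N, hN, e, e', V, V', h => by
      show e x ∈ V X ↔ e' x ∈ V' X
      rw [(h x (le_of_max_le_left hN)).1, (h X (le_of_max_le_right hN)).2]
  | .mod X q r, N, hN, e, e', V, V', h => by
      show (V X).ncard ≡ r [MOD q + 1] ↔ (V' X).ncard ≡ r [MOD q + 1]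
      rw [(h X hN).2]
  | .neg φ, N, hN, e, e', V, V', h => not_congr (sat_congr φ N hN e e' V V' h)
  | .and φ ψ, N, hN, e, e', V, V', h =>
      and_congr (sat_congr φ N (le_of_max_le_left hN) e e' V V' h)
        (sat_congr ψ N (le_of_max_le_right hN) e e' V V' h)
  | .ex x φ, N, hN, e, e', V, V', h => by
      refine exists_congr fun a => sat_congr φ N (le_of_max_le_right hN) _ _ V V' fun i hi => ?_
      refine ⟨?_, (h i hi).2⟩
      by_cases hx : i = x
      · subst hx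
        simp
      · simp only [Function.update_of_ne hx]
        exact (h i hi).1
  | .exS X φ, N, hN, e, e', V, V', h => by
      refine exists_congr fun S => sat_congr φ N (le_of_max_le_right hN) e e' _ _ fun i hi => ?_
      refine ⟨(h i hi).1, ?_⟩
      by_cases hx : i = X
      · subst hx
        simp
      · simp only [Function.update_of_ne hx]
        exact (h i hi).2

theorem sat_clo {P : ℕ → A → Prop} {R : ℕ → A → A → Prop} (φ : MS) : ∀ (n : ℕ) (e : ℕ → A)
    (V : ℕ → Set A), (φ.clo n).Sat P R e V ↔ ∀ (e' : ℕ → A) (V' : ℕ → Set A),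
      (∀ i, n ≤ i → e' i = e i ∧ V' i = V i) → φ.Sat P R e' V'
  | 0, e, V => by
      constructor
      · intro h e' V' h1
        have he : e' = e := funext fun i => (h1 i (Nat.zero_le i)).1
        have hV : V' = V := funext fun i => (h1 i (Nat.zero_le i)).2
        rw [he, hV]
        exact h
      · intro h
        exact h e V fun _ _ => ⟨rfl, rfl⟩
  | n + 1, e, V => by
      show ¬ (∃ a : A, ∃ S : Set A, ¬ (φ.clo n).Sat P R (Function.update e n a)
        (Function.update V n S)) ↔ _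
      constructor
      · intro h e' V' h1
        by_contra hc
        refine h ⟨e' n, V' n, fun h2 => hc ?_⟩
        refine (sat_clo φ n _ _).1 h2 e' V' fun i hi => ?_
        rcases Nat.eq_or_lt_of_le hi with rfl | hi
        · simp
        · simp only [Function.update_of_ne (Nat.ne_of_gt hi)]
          exact h1 i hi
      · rintro h ⟨a, S, h2⟩
        refine h2 ((sat_clo φ n _ _).2 fun e' V' h1 => h e' V' fun i hi => ?_)
        have h3 := h1 i (Nat.le_of_succ_le hi)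
        simpa only [Function.update_of_ne (Nat.ne_of_gt hi)] using h3

theorem sat_valid {P : ℕ → A → Prop} {R : ℕ → A → A → Prop} (φ : MS) (e : ℕ → A) (V : ℕ → Set A) :
    (φ.clo φ.vb).Sat P R e V ↔ ∀ (e' : ℕ → A) (V' : ℕ → Set A), φ.Sat P R e' V' := by
  rw [sat_clo]
  constructor
  · intro h e' V'
    refine (sat_congr φ φ.vb le_rfl (fun i => if i < φ.vb then e' i else e i) e'
      (fun i => if i < φ.vb then V' i else V i) V' fun i hi => ?_).1 (h _ _ fun i hi => ?_)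
    · simp [hi]
    · simp [Nat.not_lt.2 hi]
  · intro h e' V' _
    exact h e' V'

theorem sat_iso (σ : A ≃ B) {P : ℕ → B → Prop} {R : ℕ → B → B → Prop} : ∀ (φ : MS) (e : ℕ → A)
    (V : ℕ → Set A), φ.Sat (fun i a => P i (σ a)) (fun i a b => R i (σ a) (σ b)) e V ↔
      φ.Sat P R (fun x => σ (e x)) (fun X => σ '' V X)
  | .un i x, e, V => Iff.rfl
  | .bi i x y, e, V => Iff.rfl
  | .eq x y, e, V => σ.injective.eq_iff.symm
  | .mem x X, e, V => (σ.injective.mem_set_image).symm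
  | .mod X q r, e, V => by
      show (V X).ncard ≡ r [MOD q + 1] ↔ (σ '' V X).ncard ≡ r [MOD q + 1]
      rw [Set.ncard_image_of_injective _ σ.injective]
  | .neg φ, e, V => not_congr (sat_iso σ φ e V)
  | .and φ ψ, e, V => and_congr (sat_iso σ φ e V) (sat_iso σ ψ e V)
  | .ex x φ, e, V => by
      have key : ∀ a, (fun y => σ (Function.update e x a y)) =
          Function.update (fun y => σ (e y)) x (σ a) := by
        intro a
        funext y
        by_cases hy : y = x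
        · subst hy
          simp
        · simp [Function.update_of_ne hy]
      constructor
      · rintro ⟨a, ha⟩
        refine ⟨σ a, ?_⟩
        rw [← key]
        exact (sat_iso σ φ _ V).1 ha
      · rintro ⟨b, hb⟩
        refine ⟨σ.symm b, (sat_iso σ φ _ V).2 ?_⟩
        rw [key, σ.apply_symm_apply]
        exact hb
  | .exS X φ, e, V => by
      have key : ∀ S : Set A, (fun Y => σ '' Function.update V X S Y) =
          Function.update (fun Y => σ '' V Y) X (σ '' S) := by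
        intro S
        funext y
        by_cases hy : y = X
        · subst hy
          simp
        · simp [Function.update_of_ne hy]
      constructor
      · rintro ⟨S, hS⟩
        refine ⟨σ '' S, ?_⟩
        rw [← key]
        exact (sat_iso σ φ e _).1 hS
      · rintro ⟨S, hS⟩
        refine ⟨σ.symm '' S, (sat_iso σ φ e _).2 ?_⟩
        rw [key, Equiv.image_symm_image]
        exact hS

end ms

/-! ### the translation -/

/-- the translation of the formulas of monadic second-order logic -/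
def tr (m : ℕ) : MS → SO
  | .un i x => .mem x i
  | .bi _ x y => .rel 0 x y
  | .eq x y => .eq x y
  | .mem x X => .mem x (m + X)
  | .mod X q r => .mod (m + X) q r
  | .neg φ => .neg (tr m φ)
  | .and φ ψ => .and (tr m φ) (tr m ψ)
  | .ex x φ => .ex x (tr m φ)
  | .exS X φ => .exS (m + X) (tr m φ)

theorem sat_tr {n k m : ℕ} {P : ℕ → Fin n → Prop} {E : Fin n → Fin n → Prop}
    {R' : ℕ → ℕ → ℕ → Prop} (hR : ∀ a b, R' 0 a b ↔ ∃ (h : a < n) (h' : b < n), E ⟨a, h⟩ ⟨b, h'⟩) :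
    ∀ (φ : MS), φ.Below m → ∀ (e : ℕ → Fin n) (V : ℕ → Set (Fin n)) (e' : ℕ → ℕ)
      (V' : ℕ → ℕ → Prop), (∀ x, e' x = (e x : ℕ)) →
      (∀ X a, V' (m + X) a ↔ ∃ h : a < n, (⟨a, h⟩ : Fin n) ∈ V X) →
      (∀ i < m, ∀ a, V' i a ↔ ∃ h : a < n, P i ⟨a, h⟩) →
      ((tr m φ).Sat n k e' V' R' ↔ φ.Sat P (fun _ => E) e V)
  | .un i x, hB, e, V, e', V', he, hV, hP => by
      show V' i (e' x) ↔ P i (e x)
      rw [hP i hB, he]
      exact ⟨fun ⟨_, h⟩ => h, fun h => ⟨(e x).2, h⟩⟩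
  | .bi i x y, hB, e, V, e', V', he, hV, hP => by
      show R' 0 (e' x) (e' y) ↔ E (e x) (e y)
      rw [hR, he, he]
      exact ⟨fun ⟨_, _, h⟩ => h, fun h => ⟨(e x).2, (e y).2, h⟩⟩
  | .eq x y, hB, e, V, e', V', he, hV, hP => by
      show e' x = e' y ↔ e x = e y
      rw [he, he]
      exact Fin.ext_iff.symm
  | .mem x X, hB, e, V, e', V', he, hV, hP => by
      show V' (m + X) (e' x) ↔ e x ∈ V X
      rw [hV, he]
      exact ⟨fun ⟨_, h⟩ => h, fun h => ⟨(e x).2, h⟩⟩
  | .mod X q r, hB, e, V, e', V', he, hV, hP => by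
      show {a | a < n ∧ V' (m + X) a}.ncard ≡ r [MOD q + 1] ↔ (V X).ncard ≡ r [MOD q + 1]
      have h1 : {a | a < n ∧ V' (m + X) a} = (fun a : Fin n => (a : ℕ)) '' V X := by
        ext a
        constructor
        · rintro ⟨-, h⟩
          obtain ⟨h2, h3⟩ := (hV X a).1 h
          exact ⟨⟨a, h2⟩, h3, rfl⟩
        · rintro ⟨b, hb, rfl⟩
          exact ⟨b.2, (hV X b).2 ⟨b.2, hb⟩⟩
      rw [h1, Set.ncard_image_of_injective _ Fin.val_injective]
  | .neg φ, hB, e, V, e', V', he, hV, hP => not_congr (sat_tr hR φ hB e V e' V' he hV hP)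
  | .and φ ψ, hB, e, V, e', V', he, hV, hP =>
      and_congr (sat_tr hR φ hB.1 e V e' V' he hV hP) (sat_tr hR ψ hB.2 e V e' V' he hV hP)
  | .ex x φ, hB, e, V, e', V', he, hV, hP => by
      have key : ∀ a : Fin n, (∀ y, Function.update e' x (a : ℕ) y =
          (Function.update e x a y : ℕ)) := by
        intro a y
        by_cases hy : y = x
        · subst hy
          simp
        · simp only [Function.update_of_ne hy]
          exact he y
      constructor
      · rintro ⟨a, ha, h⟩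
        exact ⟨⟨a, ha⟩, (sat_tr hR φ hB _ V _ V' (key ⟨a, ha⟩) hV hP).1 h⟩
      · rintro ⟨a, h⟩
        exact ⟨a, a.2, (sat_tr hR φ hB _ V _ V' (key a) hV hP).2 h⟩
  | .exS X φ, hB, e, V, e', V', he, hV, hP => by
      have key : ∀ (S : ℕ → Prop) (S' : Set (Fin n)), (∀ a, S a ↔ ∃ h : a < n, (⟨a, h⟩ : Fin n) ∈ S') →
          (∀ Y a, Function.update V' (m + X) S (m + Y) a ↔
            ∃ h : a < n, (⟨a, h⟩ : Fin n) ∈ Function.update V X S' Y) ∧
          ∀ i < m, ∀ a, Function.update V' (m + X) S i a ↔ ∃ h : a < n, P i ⟨a, h⟩ := by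
        intro S S' hS
        constructor
        · intro Y a
          by_cases hy : Y = X
          · subst hy
            simp only [Function.update_self]
            exact hS a
          · rw [Function.update_of_ne hy, Function.update_of_ne (by omega)]
            exact hV Y a
        · intro i hi a
          rw [Function.update_of_ne (by omega)]
          exact hP i hi a
      constructor
      · rintro ⟨S, hS, h⟩
        obtain ⟨h1, h2⟩ := key S {a | S a} fun a => ⟨fun h => ⟨hS a h, h⟩, fun ⟨_, h⟩ => h⟩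
        exact ⟨{a | S a}, (sat_tr hR φ hB e _ e' _ he h1 h2).1 h⟩
      · rintro ⟨S, h⟩
        obtain ⟨h1, h2⟩ := key (fun a => ∃ h : a < n, (⟨a, h⟩ : Fin n) ∈ S) S fun a => Iff.rfl
        exact ⟨_, fun a ⟨h, _⟩ => h, (sat_tr hR φ hB e _ e' _ he h1 h2).2 h⟩

/-! ### the conditions on the graph and the tree -/

/-- universal quantifier -/
def aU (x : ℕ) (φ : SO) : SO := .neg (.ex x (.neg φ))

/-- implication -/
def im (φ ψ : SO) : SO := .neg (.and φ (.neg ψ))

/-- equivalence -/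
def io (φ ψ : SO) : SO := .and (im φ ψ) (im ψ φ)

section so

variable {n k : ℕ} {e : ℕ → ℕ} {V : ℕ → ℕ → Prop} {R : ℕ → ℕ → ℕ → Prop}

theorem sat_aU (x : ℕ) (φ : SO) :
    (aU x φ).Sat n k e V R ↔ ∀ a < n, φ.Sat n k (Function.update e x a) V R := by
  show ¬ (∃ a < n, ¬ _) ↔ _
  push Not
  exact Iff.rfl

theorem sat_im (φ ψ : SO) : (im φ ψ).Sat n k e V R ↔ (φ.Sat n k e V R → ψ.Sat n k e V R) := by
  show ¬ (_ ∧ ¬ _) ↔ _
  tauto

theorem sat_io (φ ψ : SO) : (io φ ψ).Sat n k e V R ↔ (φ.Sat n k e V R ↔ ψ.Sat n k e V R) := by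
  show (im φ ψ).Sat n k e V R ∧ (im ψ φ).Sat n k e V R ↔ _
  rw [sat_im, sat_im]
  tauto

end so

/-- the interval between the variables 0 and 1 -/
def inn (x : ℕ) : SO := .and (.neg (.lt x 0)) (.neg (.lt 1 x))

/-- the relation 0 is symmetric and irreflexive -/
def chiE : SO := aU 0 (aU 1 (im (.rel 0 0 1) (.and (.rel 0 1 0) (.neg (.eq 0 1)))))

/-- the tree contains the interval of all elements -/
def chiT : SO := aU 0 (aU 1 (im (.and (.neg (.ex 2 (.lt 2 0))) (.neg (.ex 2 (.lt 1 2)))) (.rel 1 0 1)))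

/-- the elements of the tree are intervals -/
def chiL : SO := aU 0 (aU 1 (im (.rel 1 0 1) (.neg (.lt 1 0))))

/-- intervals split -/
def chiS : SO := aU 0 (aU 1 (im (.and (.rel 1 0 1) (.lt 0 1)) (.ex 2 (.ex 3 (.and
  (.and (.neg (.lt 2 0)) (.lt 2 1)) (.and (.and (.lt 2 3) (.neg (.ex 4 (.and (.lt 2 4) (.lt 4 3)))))
    (.and (.rel 1 0 2) (.rel 1 3 1))))))))

/-- few classes -/
def chiF : SO := aU 0 (aU 1 (im (.rel 1 0 1) (.exR 2 (.and
  (aU 2 (im (inn 2) (.ex 5 (.and (.rel 2 2 5) (.and (.ltk 5) (aU 6 (im (.rel 2 2 6) (.eq 6 5))))))))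
  (aU 2 (aU 3 (im (.and (inn 2) (inn 3)) (io (.ex 5 (.and (.rel 2 2 5) (.rel 2 3 5)))
    (aU 4 (im (.neg (inn 4)) (io (.rel 0 2 4) (.rel 0 3 4))))))))))))

section so

variable {n k : ℕ} {e : ℕ → ℕ} {V : ℕ → ℕ → Prop} {R : ℕ → ℕ → ℕ → Prop}

theorem sat_chiE : chiE.Sat n k e V R ↔ ∀ a < n, ∀ b < n, R 0 a b → R 0 b a ∧ a ≠ b := by
  simp only [chiE, sat_aU, sat_im, SO.Sat]
  simp

theorem sat_chiT : chiT.Sat n k e V R ↔ ∀ a < n, ∀ b < n,
    (¬ ∃ z < n, z < a) → (¬ ∃ z < n, b < z) → R 1 a b := by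
  simp only [chiT, sat_aU, sat_im, SO.Sat]
  simp

theorem sat_chiL : chiL.Sat n k e V R ↔ ∀ a < n, ∀ b < n, R 1 a b → a ≤ b := by
  simp only [chiL, sat_aU, sat_im, SO.Sat]
  simp

theorem sat_chiS : chiS.Sat n k e V R ↔ ∀ a < n, ∀ b < n, R 1 a b → a < b → ∃ c < n, ∃ d < n,
    (a ≤ c ∧ c < b) ∧ (c < d ∧ ¬ ∃ z < n, c < z ∧ z < d) ∧ R 1 a c ∧ R 1 d b := by
  simp only [chiS, sat_aU, sat_im, SO.Sat]
  simp

theorem sat_chiF : chiF.Sat n k e V R ↔ ∀ a < n, ∀ b < n, R 1 a b → ∃ r : ℕ → ℕ → Prop,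
    (∀ a b, r a b → a < n ∧ b < n) ∧ (∀ x < n, (a ≤ x ∧ x ≤ b) → ∃ j < n, r x j ∧ j < k ∧
      ∀ j' < n, r x j' → j' = j) ∧
    ∀ x < n, ∀ y < n, (a ≤ x ∧ x ≤ b) ∧ (a ≤ y ∧ y ≤ b) → ((∃ j < n, r x j ∧ r y j) ↔
      ∀ z < n, ¬ (a ≤ z ∧ z ≤ b) → (R 0 x z ↔ R 0 y z)) := by
  simp only [chiF, inn, sat_aU, sat_im, sat_io, SO.Sat]
  simp

end so

theorem tree_iff {n : ℕ} (hn : 0 < n) {T : ℕ → ℕ → Prop} (hT : ∀ a b, T a b → a < n ∧ b < n) :
    ((∀ a < n, ∀ b < n, (¬ ∃ z < n, z < a) → (¬ ∃ z < n, b < z) → T a b) ∧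
      (∀ a < n, ∀ b < n, T a b → a ≤ b) ∧
      ∀ a < n, ∀ b < n, T a b → a < b → ∃ c < n, ∃ d < n,
        (a ≤ c ∧ c < b) ∧ (c < d ∧ ¬ ∃ z < n, c < z ∧ z < d) ∧ T a c ∧ T d b) ↔ IntTree n T := by
  constructor
  · rintro ⟨h1, h2, h3⟩
    refine ⟨h1 0 hn (n - 1) (by omega) (by simp) ?_, fun a b h => ⟨h2 a (hT a b h).1 b (hT a b h).2 h,
      (hT a b h).2⟩, fun a b h hab => ?_⟩
    · rintro ⟨z, hz, hz'⟩
      omega
    · obtain ⟨c, hc, d, hd, ⟨h4, h5⟩, ⟨h6, h7⟩, h8, h9⟩ := h3 a (hT a b h).1 b (hT a b h).2 h hab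
      have h10 : d = c + 1 := by
        by_contra hne
        exact h7 ⟨c + 1, by omega, by omega, by omega⟩
      exact ⟨c, h4, h5, h8, h10 ▸ h9⟩
  · rintro ⟨h1, h2, h3⟩
    refine ⟨fun a ha b hb h4 h5 => ?_, fun a _ b _ h => (h2 a b h).1, fun a ha b hb h hab => ?_⟩
    · have h6 : a = 0 := by
        by_contra hne
        exact h4 ⟨0, hn, by omega⟩
      have h7 : b = n - 1 := by
        by_contra hne
        exact h5 ⟨n - 1, by omega, by omega⟩
      rw [h6, h7]
      exact h1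
    · obtain ⟨c, h4, h5, h6, h7⟩ := h3 a b h hab
      refine ⟨c, by omega, c + 1, by omega, ⟨h4, h5⟩, ⟨by omega, ?_⟩, h6, h7⟩
      rintro ⟨z, -, h8, h9⟩
      omega

theorem few_iff {n k : ℕ} {E T : ℕ → ℕ → Prop} (hT : ∀ a b, T a b → a < n ∧ b < n) :
    (∀ a < n, ∀ b < n, T a b → ∃ r : ℕ → ℕ → Prop,
      (∀ a b, r a b → a < n ∧ b < n) ∧ (∀ x < n, (a ≤ x ∧ x ≤ b) → ∃ j < n, r x j ∧ j < k ∧
        ∀ j' < n, r x j' → j' = j) ∧
      ∀ x < n, ∀ y < n, (a ≤ x ∧ x ≤ b) ∧ (a ≤ y ∧ y ≤ b) → ((∃ j < n, r x j ∧ r y j) ↔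
        ∀ z < n, ¬ (a ≤ z ∧ z ≤ b) → (E x z ↔ E y z))) ↔ FewCl k n E T := by
  classical
  constructor
  · intro h a b hab
    obtain ⟨ha, hb⟩ := hT a b hab
    obtain ⟨r, hr, h1, h2⟩ := h a ha b hb hab
    have h3 : ∀ x, ∃ j, a ≤ x → x ≤ b → j < n ∧ r x j ∧ j < k ∧ ∀ j' < n, r x j' → j' = j := by
      intro x
      by_cases hx : a ≤ x ∧ x ≤ b
      · obtain ⟨j, hj⟩ := h1 x (by omega) hx
        exact ⟨j, fun _ _ => hj⟩
      · exact ⟨0, fun h4 h5 => absurd ⟨h4, h5⟩ hx⟩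
    choose ρ hρ using h3
    refine ⟨ρ, fun x hx hx' => ⟨(hρ x hx hx').2.2.1, (hρ x hx hx').1⟩, fun x y hx hx' hy hy' => ?_⟩
    have h4 := h2 x (by omega) y (by omega) ⟨⟨hx, hx'⟩, hy, hy'⟩
    have h5 : ρ x = ρ y ↔ ∃ j < n, r x j ∧ r y j := by
      constructor
      · intro h6
        refine ⟨ρ x, (hρ x hx hx').1, (hρ x hx hx').2.1, ?_⟩
        rw [h6]
        exact (hρ y hy hy').2.1
      · rintro ⟨j, hj, h6, h7⟩
        rw [← (hρ x hx hx').2.2.2 j hj h6, ← (hρ y hy hy').2.2.2 j hj h7]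
    rw [h5, h4]
    refine forall_congr' fun z => imp_congr_right fun _ => imp_congr_left ?_
    omega
  · intro h a ha b hb hab
    obtain ⟨ρ, h1, h2⟩ := h a b hab
    refine ⟨fun x j => x < n ∧ (a ≤ x ∧ x ≤ b) ∧ j = ρ x, ?_, ?_, ?_⟩
    · rintro x j ⟨hx, ⟨hx', hx''⟩, rfl⟩
      exact ⟨hx, (h1 x hx' hx'').2⟩
    · rintro x hx ⟨hx', hx''⟩
      exact ⟨ρ x, (h1 x hx' hx'').2, ⟨hx, ⟨hx', hx''⟩, rfl⟩, (h1 x hx' hx'').1,
        fun j' _ h3 => h3.2.2⟩
    · rintro x hx y hy ⟨⟨hx', hx''⟩, hy', hy''⟩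
      have h3 := h2 x y hx' hx'' hy' hy''
      have h4 : (∃ j < n, (x < n ∧ (a ≤ x ∧ x ≤ b) ∧ j = ρ x) ∧
          (y < n ∧ (a ≤ y ∧ y ≤ b) ∧ j = ρ y)) ↔ ρ x = ρ y := by
        constructor
        · rintro ⟨j, -, ⟨-, -, h5⟩, -, -, h6⟩
          rw [← h5, ← h6]
        · intro h5
          exact ⟨ρ x, (h1 x hx' hx'').2, ⟨hx, ⟨hx', hx''⟩, rfl⟩, hy, ⟨hy', hy''⟩, h5⟩
      rw [h4, h3]
      refine forall_congr' fun z => imp_congr_right fun _ => imp_congr_left ?_
      omega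

/-! ### quantifiers for the unary predicates -/

/-- quantifiers for the first `m` sets -/
def exs : ℕ → SO → SO
  | 0, φ => φ
  | m + 1, φ => exs m (.exS m φ)

theorem sat_exs {n k : ℕ} {e : ℕ → ℕ} {R : ℕ → ℕ → ℕ → Prop} : ∀ (m : ℕ) (φ : SO)
    (V : ℕ → ℕ → Prop), (exs m φ).Sat n k e V R ↔ ∃ W : ℕ → ℕ → Prop,
      (∀ i < m, ∀ a, W i a → a < n) ∧ φ.Sat n k e (fun i => if i < m then W i else V i) R
  | 0, φ, V => by
      show φ.Sat n k e V R ↔ _
      simp
  | m + 1, φ, V => by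
      have ih := sat_exs (n := n) (k := k) (e := e) (R := R) m (.exS m φ) V
      show (exs m (.exS m φ)).Sat n k e V R ↔ _
      rw [ih]
      constructor
      · rintro ⟨W, hW, S, hS, h⟩
        refine ⟨Function.update W m S, fun i hi a ha => ?_, ?_⟩
        · by_cases him : i = m
          · subst him
            rw [Function.update_self] at ha
            exact hS a ha
          · rw [Function.update_of_ne him] at ha
            exact hW i (by omega) a ha
        · have e1 : (fun i => if i < m + 1 then Function.update W m S i else V i) =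
              Function.update (fun i => if i < m then W i else V i) m S := by
            funext i
            by_cases him : i = m
            · subst him
              simp
            · rw [Function.update_of_ne him, Function.update_of_ne him]
              by_cases hi : i < m
              · rw [if_pos hi, if_pos (by omega)]
              · rw [if_neg hi, if_neg (by omega)]
          rw [e1]
          exact h
      · rintro ⟨W, hW, h⟩
        refine ⟨W, fun i hi => hW i (by omega), W m, hW m (by omega), ?_⟩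
        have e1 : (fun i => if i < m + 1 then W i else V i) =
            Function.update (fun i => if i < m then W i else V i) m (W m) := by
          funext i
          by_cases him : i = m
          · subst him
            simp
          · rw [Function.update_of_ne him]
            by_cases hi : i < m
            · rw [if_pos hi, if_pos (by omega)]
            · rw [if_neg hi, if_neg (by omega)]
        rw [← e1]
        exact h

theorem pf_NSO (hMW1 : T_MW1) (hMW2 : T_MW2) : T_NSO := by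
  intro Ψ _
  obtain ⟨m, hm, -⟩ := exists_below Ψ
  have hmc : (Ψ.clo Ψ.vb).Below m := MS.below_clo hm _
  refine ⟨exs m (.exR 0 (.exR 1 (.and (.and chiE (.and chiT (.and chiL (.and chiS chiF))))
    (tr m (Ψ.clo Ψ.vb))))), fun n k hn => ?_⟩
  haveI : Nonempty (Fin n) := ⟨⟨0, hn⟩⟩
  unfold SO.True
  rw [sat_exs]
  constructor
  · rintro ⟨-, P, G, hG, hv⟩
    obtain ⟨σ, T, hT, hF⟩ := hMW1 k n G hn hG
    have hTs : ∀ a b, T a b → a < n ∧ b < n := fun a b h => by
      have := hT.le a b h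
      omega
    set E : ℕ → ℕ → Prop := fun x y => ∃ (hx : x < n) (hy : y < n),
      G.Adj (σ ⟨x, hx⟩) (σ ⟨y, hy⟩) with hE
    refine ⟨fun i a => ∃ h : a < n, P i (σ ⟨a, h⟩), fun i _ a ⟨h, _⟩ => h, E,
      fun a b ⟨h, h', _⟩ => ⟨h, h'⟩, T, hTs, ⟨?_, ?_, ?_, ?_, ?_⟩, ?_⟩
    · rw [sat_chiE]
      intro a _ b _ h
      have h' : E a b := h
      obtain ⟨hx, hy, h1⟩ := h'
      refine ⟨?_, ?_⟩
      · show E b a
        exact ⟨hy, hx, h1.symm⟩
      · rintro rfl
        exact G.loopless.irrefl _ h1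
    · rw [sat_chiT]
      exact ((tree_iff hn hTs).2 hT).1
    · rw [sat_chiL]
      exact ((tree_iff hn hTs).2 hT).2.1
    · rw [sat_chiS]
      exact ((tree_iff hn hTs).2 hT).2.2
    · rw [sat_chiF]
      exact (few_iff hTs).2 hF
    · refine (sat_tr (P := fun i a => P i (σ a)) (E := fun a b => G.Adj (σ a) (σ b)) ?_ _ hmc
        (fun _ => ⟨0, hn⟩) (fun _ => ∅) _ _ ?_ ?_ ?_).2 ?_
      · intro a b
        exact Iff.rfl
      · intro x
        rfl
      · intro X a
        simp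
      · intro i hi a
        simp [hi]
      · rw [sat_valid]
        intro e' V'
        exact (sat_iso σ (P := P) (R := fun _ => G.Adj) Ψ e' V').2 (hv _ _)
  · rintro ⟨W, hW, E, hEs, T, hTs, ⟨h1, h2, h3, h4, h5⟩, h6⟩
    rw [sat_chiE] at h1
    rw [sat_chiT] at h2
    rw [sat_chiL] at h3
    rw [sat_chiS] at h4
    rw [sat_chiF] at h5
    have hT : IntTree n T := (tree_iff hn hTs).1 ⟨h2, h3, h4⟩
    have hF : FewCl k n E T := (few_iff hTs).1 h5
    have h1' : ∀ a < n, ∀ b < n, E a b → E b a ∧ a ≠ b := h1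
    let G : SimpleGraph (Fin n) :=
      { Adj := fun a b => E a b
        symm := ⟨fun a b h => (h1' a a.2 b b.2 h).1⟩
        loopless := ⟨fun a h => (h1' a a.2 a a.2 h).2 rfl⟩ }
    refine ⟨hn, fun i a => W i a, G, ?_, ?_⟩
    · refine hMW2 k n G T hn hT ?_
      have e1 : (fun x y => ∃ (hx : x < n) (hy : y < n), G.Adj ⟨x, hx⟩ ⟨y, hy⟩) = E := by
        funext x y
        exact propext ⟨fun ⟨_, _, h⟩ => h, fun h => ⟨(hEs x y h).1, (hEs x y h).2, h⟩⟩
      rw [e1]
      exact hF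
    · refine (sat_valid Ψ (fun _ => ⟨0, hn⟩) (fun _ => ∅)).1 ?_
      refine (sat_tr (P := fun i a => W i a) (E := fun a b => G.Adj a b) ?_ _ hmc
        (fun _ => ⟨0, hn⟩) (fun _ => ∅) _ _ ?_ ?_ ?_).1 h6
      · intro a b
        show E a b ↔ _
        exact ⟨fun h => ⟨(hEs a b h).1, (hEs a b h).2, h⟩, fun ⟨_, _, h⟩ => h⟩
      · intro x
        rfl
      · intro X a
        simp
      · intro i hi a
        simp only [hi, if_true]
        exact ⟨fun h => ⟨hW i hi a h, h⟩, fun ⟨_, h⟩ => h⟩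

end Pool.Agent.H46.WB
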